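import Pool.Agent.TH841.SH.Sel

/-!
# Project SX: from square classes to Selmer homomorphisms
-/

set_option autoImplicit false

namespace Pool.Agent.Z864.SX

open WeierstrassCurve Pool.Agent.TH841.SH

open scoped Classical

open Pool.Agent.W262.SH (QB Pt act IsCoc IsCob LocTriv shaCoc cob Sha)

section

variable {K Ω : Type} [Field K] [Field Ω] [Algebra ℚ K] [Algebra K Ω] [Algebra ℚ Ω]
  [IsScalarTower ℚ K Ω]

/-- one of the signs -/
lemma one (h2 : (2 : Ω) ≠ 0)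
    {W : WeierstrassCurve ℚ} {a b c : ℚ} (h : IsR W a b c) (hab : a ≠ b) (hac : a ≠ c)
    (hbc : b ≠ c) (ι : QB →ₐ[ℚ] Ω) {u v : Ω}
    (hn : (W.baseChange Ω).toAffine.Nonsingular u v) (hv : v ≠ 0)
    (e : ℤ) (he : e ≠ 0) (s : QB) (hs : s ^ 2 = e) (x : K)
    (hx0 : x - algebraMap ℚ K a ≠ 0)
    (hx : algebraMap K Ω x - algebraMap ℚ Ω a =
      gf (W.baseChange Ω) (algebraMap ℚ _ a) (algebraMap ℚ _ b)
        (algebraMap ℚ _ c) (.some u v hn) ^ 2)
    (hsq : IsSquare ((x - algebraMap ℚ K a) * (e : K)))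
    (τ : Ω ≃ₐ[K] Ω) (σ : QB ≃ₐ[ℚ] QB)
    (hσ : (τ.toAlgHom.restrictScalars ℚ).comp ι = ι.comp σ.toAlgHom) (T : Pt W Ω)
    (hTT : T + T = 0)
    (hT : act W (τ.toAlgHom.restrictScalars ℚ) (.some u v hn) = .some u v hn + T) :
    σ s = s ↔ IsX (W.baseChange Ω) (algebraMap ℚ Ω a) T := by
  have hinj : Function.Injective (algebraMap ℚ Ω) := (algebraMap ℚ Ω).injective
  have hcomm : ∀ w : QB, τ (ι w) = ι (σ w) := fun w => DFunLike.congr_fun hσ w
  obtain ⟨g, hg⟩ : ∃ g : Ω, gf (W.baseChange Ω) (algebraMap ℚ _ a) (algebraMap ℚ _ b)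
    (algebraMap ℚ _ c) (.some u v hn) = g := ⟨_, rfl⟩
  rw [hg] at hx
  have e1 : τ g = gf (W.baseChange Ω) (algebraMap ℚ _ a) (algebraMap ℚ _ b)
      (algebraMap ℚ _ c) (act W (τ.toAlgHom.restrictScalars ℚ) (.some u v hn)) := by
    rw [← hg]
    exact act_gf (a := a) (b := b) (c := c) (τ.toAlgHom.restrictScalars ℚ) (.some u v hn)
  have hts : (ι s) ^ 2 = (e : Ω) := by
    rw [← map_pow, hs, map_intCast]
  have hxa : algebraMap K Ω x - algebraMap ℚ Ω a = algebraMap K Ω (x - algebraMap ℚ K a) := by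
    rw [map_sub, ← IsScalarTower.algebraMap_apply]
  have heΩ : (e : Ω) ≠ 0 := by
    intro h0
    have h1 : algebraMap ℚ Ω (e : ℚ) = 0 := by rw [map_intCast]; exact h0
    rw [map_eq_zero] at h1
    exact he (by exact_mod_cast h1)
  have hs0 : ι s ≠ 0 := by
    intro h0
    rw [h0] at hts
    exact heΩ (by rw [← hts]; ring)
  have hg0 : g ≠ 0 := by
    intro h0
    rw [h0, hxa] at hx
    apply hx0
    apply (algebraMap K Ω).injective
    rw [hx, map_zero]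
    ring
  obtain ⟨r, hr⟩ := hsq
  have hgt : (g * ι s) ^ 2 = (algebraMap K Ω r) ^ 2 := by
    rw [mul_pow, ← hx, hts, hxa, pow_two (algebraMap K Ω r), ← map_mul, ← hr, map_mul, map_intCast]
  have hfix : τ (g * ι s) = g * ι s := by
    rcases sq_eq_sq_iff_eq_or_eq_neg.1 hgt with h1 | h1
    · rw [h1]
      exact τ.commutes r
    · rw [h1, map_neg]
      congr 1
      exact τ.commutes r
  rw [map_mul, hcomm, e1, hT] at hfix
  obtain ⟨u', v', hn', e2, hv', h3, h4⟩ := (h.base Ω).sign h2 (hinj.ne hab) (hinj.ne hac)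
    (hinj.ne hbc) hn hv hTT
  rw [e2] at hfix
  by_cases hX : IsX (W.baseChange Ω) (algebraMap ℚ Ω a) T
  · rw [h3 hX, hg] at hfix
    simp only [hX, iff_true]
    exact ι.injective (mul_left_cancel₀ hg0 hfix)
  · rw [h4 hX, hg] at hfix
    simp only [hX, iff_false]
    intro h5
    rw [h5] at hfix
    have h6 : 2 * (g * ι s) = 0 := by linear_combination -hfix
    rcases mul_eq_zero.1 h6 with h7 | h7
    · exact h2 h7
    · exact mul_ne_zero hg0 hs0 h7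

/-- the converse of the local step -/
theorem loc_conv [IsAlgClosed Ω] (h2 : (2 : Ω) ≠ 0) (h2K : (2 : K) ≠ 0)
    {W : WeierstrassCurve ℚ} {a b c : ℚ} (h : IsR W a b c) (hab : a ≠ b) (hac : a ≠ c)
    (hbc : b ≠ c) (f : (QB ≃ₐ[ℚ] QB) → Pt W QB) (hf : ∀ σ, f σ + f σ = 0)
    (e e' : ℤ) (he : e ≠ 0) (he' : e' ≠ 0) (s s' : QB) (hs : s ^ 2 = e) (hs' : s' ^ 2 = e')
    (hse : ∀ σ : QB ≃ₐ[ℚ] QB, σ s = s ↔ IsX (W.baseChange QB) (algebraMap ℚ QB a) (f σ))
    (hse' : ∀ σ : QB ≃ₐ[ℚ] QB, σ s' = s' ↔ IsX (W.baseChange QB) (algebraMap ℚ QB b) (f σ))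
    (hpt : ∃ x y : K, y ≠ 0 ∧ y ^ 2 = (x - algebraMap ℚ K a) * (x - algebraMap ℚ K b) *
      (x - algebraMap ℚ K c) ∧ IsSquare ((x - algebraMap ℚ K a) * (e : K)) ∧
      IsSquare ((x - algebraMap ℚ K b) * (e' : K)))
    (ι : QB →ₐ[ℚ] Ω) : ∃ P : Pt W Ω, ∀ (τ : Ω ≃ₐ[K] Ω) (σ : QB ≃ₐ[ℚ] QB),
      (τ.toAlgHom.restrictScalars ℚ).comp ι = ι.comp σ.toAlgHom →
      act W ι (f σ) = act W (τ.toAlgHom.restrictScalars ℚ) P - P := by
  have hinj : Function.Injective (algebraMap ℚ Ω) := (algebraMap ℚ Ω).injective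
  have hinjK : Function.Injective (algebraMap ℚ K) := (algebraMap ℚ K).injective
  have hbΩ := h.base Ω
  obtain ⟨x, y, hy, hxy, hq1, hq2⟩ := hpt
  have hx1 : x - algebraMap ℚ K a ≠ 0 := by
    intro h0
    rw [h0, zero_mul, zero_mul] at hxy
    exact hy (pow_eq_zero_iff two_ne_zero |>.1 hxy)
  have hx2 : x - algebraMap ℚ K b ≠ 0 := by
    intro h0
    rw [h0, mul_zero, zero_mul] at hxy
    exact hy (pow_eq_zero_iff two_ne_zero |>.1 hxy)
  have hnK : (W.baseChange K).toAffine.Nonsingular x y :=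
    (h.base K).nons h2K (hinjK.ne hab) (hinjK.ne hac) (hinjK.ne hbc) hxy
  let j : K →ₐ[ℚ] Ω := IsScalarTower.toAlgHom ℚ K Ω
  obtain ⟨R0, hR0⟩ : ∃ R0 : Pt W Ω, act W j (.some x y hnK) = R0 := ⟨_, rfl⟩
  have hR0fix : ∀ τ : Ω ≃ₐ[K] Ω, act W (τ.toAlgHom.restrictScalars ℚ) R0 = R0 := by
    intro τ
    rw [← hR0, act_act]
    congr 1
    congr 1
    ext z
    exact τ.commutes z
  have hR0ne : R0 ≠ 0 := by
    rw [← hR0, act_some]
    exact Affine.Point.some_ne_zero _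
  obtain ⟨P, hP⟩ := hbΩ.div h2 (hinj.ne hab) (hinj.ne hac) (hinj.ne hbc) R0
  rcases P with _ | ⟨u, v, hn⟩
  · exact absurd (hP.trans (add_zero 0)) hR0ne
  have hv : v ≠ 0 := by
    intro hv
    apply hR0ne
    rw [hP]
    exact (hbΩ.add_self h2 hn).2 hv
  obtain ⟨X, Y, hn', e1, hXa⟩ := hbΩ.dup h2 hn hv
  obtain ⟨X', Y', hn'', e1', hXb⟩ := hbΩ.swap.dup h2 hn hv
  rw [e1, Affine.Point.some.injEq] at e1'
  obtain ⟨rfl, rfl⟩ := e1'
  have hX : X = algebraMap K Ω x := by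
    have h3 : (Affine.Point.some X Y hn' : Pt W Ω) = act W j (.some x y hnK) := by
      rw [hR0, hP, e1]
    rw [act_some, Affine.Point.some.injEq] at h3
    exact h3.1
  rw [hX] at hXa hXb
  refine ⟨.some u v hn, fun τ σ hσ => ?_⟩
  obtain ⟨T, hT⟩ : ∃ T : Pt W Ω, T = act W (τ.toAlgHom.restrictScalars ℚ) (.some u v hn) -
    .some u v hn := ⟨_, rfl⟩
  have hT' : act W (τ.toAlgHom.restrictScalars ℚ) (.some u v hn) = .some u v hn + T := by
    rw [hT]
    abel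
  have hTT : T + T = 0 := by
    have h4 : T + T = act W (τ.toAlgHom.restrictScalars ℚ)
        ((.some u v hn : Pt W Ω) + .some u v hn) - ((.some u v hn : Pt W Ω) + .some u v hn) := by
      rw [map_add, hT]
      abel
    rw [h4, ← hP, hR0fix, sub_self]
  rw [← hT]
  refine hbΩ.ext h2 (hinj.ne hab) (hinj.ne hac) (hinj.ne hbc) ?_ hTT ?_ ?_
  · rw [← map_add, hf, map_zero]
  · rw [act_isX, ← hse]
    exact one h2 h hab hac hbc ι hn hv e he s hs x hx1 hXa hq1 τ σ hσ T hTT hT'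
  · rw [act_isX, ← hse']
    exact one h2 h.swap hab.symm hbc hac ι hn hv e' he' s' hs' x hx2 hXb hq2 τ σ hσ T hTT hT'

end

/-- the stabiliser of an element is open -/
lemma open_fix (s : QB) : IsOpen {σ : QB ≃ₐ[ℚ] QB | σ s = s} := by
  have hint : IsIntegral ℚ s := Algebra.IsIntegral.isIntegral s
  have hfd : FiniteDimensional ℚ (IntermediateField.adjoin ℚ {s}) :=
    IntermediateField.adjoin.finiteDimensional hint
  have h1 := IntermediateField.fixingSubgroup_isOpen (IntermediateField.adjoin ℚ {s})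
  have h2 : ((IntermediateField.adjoin ℚ {s}).fixingSubgroup : Set (QB ≃ₐ[ℚ] QB)) =
      {σ : QB ≃ₐ[ℚ] QB | σ s = s} := by
    ext σ
    rw [SetLike.mem_coe, IntermediateField.mem_fixingSubgroup_iff, Set.mem_ofPred_eq]
    constructor
    · intro h
      exact h s (IntermediateField.mem_adjoin_simple_self ℚ s)
    · intro h x hx
      have h3 : IntermediateField.adjoin ℚ {s} ≤ IntermediateField.fixedField (Subgroup.zpowers σ) := by
        rw [IntermediateField.adjoin_simple_le_iff, IntermediateField.mem_fixedField_iff]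
        intro f hf
        have : Subgroup.zpowers σ ≤ MulAction.stabilizer (QB ≃ₐ[ℚ] QB) s := by
          rw [Subgroup.zpowers_le]
          exact h
        exact this hf
      have h4 := h3 hx
      rw [IntermediateField.mem_fixedField_iff] at h4
      exact h4 σ (Subgroup.mem_zpowers σ)
  rw [← h2]
  exact h1

/-- local triviality -/
lemma locT {K : Type} [Field K] [Algebra ℚ K] (h2 : (2 : AlgebraicClosure K) ≠ 0)
    (h2K : (2 : K) ≠ 0)
    {W : WeierstrassCurve ℚ} {a b c : ℤ} (h : IsR W (a : ℚ) (b : ℚ) (c : ℚ)) (hab : a ≠ b)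
    (hac : a ≠ c) (hbc : b ≠ c) (f : (QB ≃ₐ[ℚ] QB) → Pt W QB) (hf : ∀ σ, f σ + f σ = 0)
    (e e' : ℤ) (he : e ≠ 0) (he' : e' ≠ 0) (s s' : QB) (hs : s ^ 2 = e) (hs' : s' ^ 2 = e')
    (hse : ∀ σ : QB ≃ₐ[ℚ] QB, σ s = s ↔ IsX (W.baseChange QB) (algebraMap ℚ QB a) (f σ))
    (hse' : ∀ σ : QB ≃ₐ[ℚ] QB, σ s' = s' ↔ IsX (W.baseChange QB) (algebraMap ℚ QB b) (f σ))
    (hL : LocC K a b c e e') : LocTriv W K f := by
  have hc : ∀ n : ℤ, algebraMap ℚ K (n : ℚ) = (n : K) := fun n => map_intCast _ n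
  intro ι
  refine loc_conv (K := K) (Ω := AlgebraicClosure K) h2 h2K h (by exact_mod_cast hab)
    (by exact_mod_cast hac) (by exact_mod_cast hbc) f hf e e' he he' s s' hs hs' hse hse' ?_ ι
  rw [hc, hc, hc]
  exact hL

/-- **The homomorphism attached to a pair of square classes.** -/
theorem exists_hom {W : WeierstrassCurve ℚ} {a b c : ℤ} (h : IsR W (a : ℚ) (b : ℚ) (c : ℚ))
    (hab : a ≠ b) (hac : a ≠ c) (hbc : b ≠ c) {d1 d2 : ℤ} (hd1 : d1 ≠ 0) (hd2 : d2 ≠ 0)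
    (hR : LocC ℝ a b c d1 d2) (hp : ∀ (p : ℕ) [Fact p.Prime], LocC ℚ_[p] a b c d1 d2) :
    ∃ f ∈ selHom W, (∀ s : QB, s ^ 2 = d1 → ∀ σ : QB ≃ₐ[ℚ] QB, σ s = s ↔
        IsX (W.baseChange QB) (algebraMap ℚ QB a) (f σ)) ∧
      ∀ s : QB, s ^ 2 = d2 → ∀ σ : QB ≃ₐ[ℚ] QB, σ s = s ↔
        IsX (W.baseChange QB) (algebraMap ℚ QB b) (f σ) := by
  have qab : (a : ℚ) ≠ b := by exact_mod_cast hab
  have qac : (a : ℚ) ≠ c := by exact_mod_cast hac
  have qbc : (b : ℚ) ≠ c := by exact_mod_cast hbc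
  have hinj : Function.Injective (algebraMap ℚ QB) := (algebraMap ℚ QB).injective
  have hB := h.base QB
  obtain ⟨s1, hs1⟩ := IsAlgClosed.exists_pow_nat_eq ((d1 : ℤ) : QB) (n := 2) (by norm_num)
  obtain ⟨s2, hs2⟩ := IsAlgClosed.exists_pow_nat_eq ((d2 : ℤ) : QB) (n := 2) (by norm_num)
  have ha : (W.baseChange QB).toAffine.Nonsingular (algebraMap ℚ QB a) 0 :=
    hB.nons two_ne_zero (hinj.ne qab) (hinj.ne qac) (hinj.ne qbc) (by ring)
  have hb : (W.baseChange QB).toAffine.Nonsingular (algebraMap ℚ QB b) 0 :=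
    hB.nons two_ne_zero (hinj.ne qab) (hinj.ne qac) (hinj.ne qbc) (by ring)
  have hc : (W.baseChange QB).toAffine.Nonsingular (algebraMap ℚ QB c) 0 :=
    hB.nons two_ne_zero (hinj.ne qab) (hinj.ne qac) (hinj.ne qbc) (by ring)
  obtain ⟨f, hf⟩ : ∃ f : (QB ≃ₐ[ℚ] QB) → Pt W QB, ∀ σ, f σ =
      if σ s1 = s1 then (if σ s2 = s2 then 0 else .some _ 0 ha)
      else (if σ s2 = s2 then .some _ 0 hb else .some _ 0 hc) := ⟨_, fun _ => rfl⟩
  have hf2 : ∀ σ, f σ + f σ = 0 := by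
    intro σ
    rw [hf]
    split_ifs
    · exact add_zero 0
    · exact (hB.add_self two_ne_zero ha).2 rfl
    · exact (hB.add_self two_ne_zero hb).2 rfl
    · exact (hB.add_self two_ne_zero hc).2 rfl
  have hfa : ∀ σ, IsX (W.baseChange QB) (algebraMap ℚ QB a) (f σ) ↔ σ s1 = s1 := by
    intro σ
    rw [hf]
    split_ifs with h1 h2 h2
    · exact ⟨fun _ => h1, fun _ => isX_zero _⟩
    · exact ⟨fun _ => h1, fun _ => isX_some ha⟩
    · exact ⟨fun h' => absurd h' (not_isX hb (hinj.ne qab.symm)), fun h' => absurd h' h1⟩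
    · exact ⟨fun h' => absurd h' (not_isX hc (hinj.ne qac.symm)), fun h' => absurd h' h1⟩
  have hfb : ∀ σ, IsX (W.baseChange QB) (algebraMap ℚ QB b) (f σ) ↔ σ s2 = s2 := by
    intro σ
    rw [hf]
    split_ifs with h1 h2 h2
    · exact ⟨fun _ => h2, fun _ => isX_zero _⟩
    · exact ⟨fun h' => absurd h' (not_isX ha (hinj.ne qab)), fun h' => absurd h' h2⟩
    · exact ⟨fun _ => h2, fun _ => isX_some hb⟩
    · exact ⟨fun h' => absurd h' (not_isX hc (hinj.ne qbc.symm)), fun h' => absurd h' h2⟩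
  have hpm : ∀ (d : ℤ) (s : QB), s ^ 2 = d → ∀ σ : QB ≃ₐ[ℚ] QB, σ s = s ∨ σ s = -s := by
    intro d s hs σ
    have : (σ s) ^ 2 = s ^ 2 := by rw [← map_pow, hs, map_intCast]
    exact sq_eq_sq_iff_eq_or_eq_neg.1 this
  have hmul : ∀ (d : ℤ) (s : QB), d ≠ 0 → s ^ 2 = d → ∀ σ τ : QB ≃ₐ[ℚ] QB,
      (σ * τ) s = s ↔ (σ s = s ↔ τ s = s) := by
    intro d s hd hs σ τ
    have hs0 : s ≠ 0 := by
      rintro rfl
      apply hd
      have : ((d : ℤ) : QB) = 0 := by rw [← hs]; ring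
      exact_mod_cast this
    have hne : ¬ (-s = s) := by
      intro h'
      have : 2 * s = 0 := by linear_combination -h'
      rcases mul_eq_zero.1 this with h7 | h7
      · exact two_ne_zero h7
      · exact hs0 h7
    rw [AlgEquiv.mul_apply]
    rcases hpm d s hs τ with ht | ht <;> rcases hpm d s hs σ with hs' | hs'
    · simp [ht, hs']
    · rw [ht, hs']
      simp [hne]
    · rw [ht, map_neg, hs']
      simp [hne]
    · rw [ht, map_neg, hs', neg_neg]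
      simp [hne]
  have hhom : ∀ σ τ, f (σ * τ) = f σ + f τ := by
    intro σ τ
    refine hB.ext two_ne_zero (hinj.ne qab) (hinj.ne qac) (hinj.ne qbc) (hf2 _) ?_ ?_ ?_
    · have : f σ + f τ + (f σ + f τ) = (f σ + f σ) + (f τ + f τ) := by abel
      rw [this, hf2, hf2, add_zero]
    · rw [hfa, hB.isX_add two_ne_zero (hinj.ne qab) (hinj.ne qac) (hinj.ne qbc) (hf2 σ) (hf2 τ),
        hfa, hfa]
      exact hmul d1 s1 hd1 hs1 σ τ
    · rw [hfb, hB.swap.isX_add two_ne_zero (hinj.ne qab.symm) (hinj.ne qbc) (hinj.ne qac) (hf2 σ)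
        (hf2 τ), hfb, hfb]
      exact hmul d2 s2 hd2 hs2 σ τ
  have hlc : IsLocallyConstant f := by
    rw [IsLocallyConstant.iff_exists_open]
    intro σ
    refine ⟨(fun τ => σ⁻¹ * τ) ⁻¹' ({τ : QB ≃ₐ[ℚ] QB | τ s1 = s1} ∩ {τ : QB ≃ₐ[ℚ] QB | τ s2 = s2}),
      ((open_fix s1).inter (open_fix s2)).preimage (continuous_const_mul _), ?_, ?_⟩
    · simp
    · rintro τ ⟨h1, h2⟩
      have h3 : f (σ⁻¹ * τ) = 0 := by
        have h1' : (σ⁻¹ * τ) s1 = s1 := h1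
        have h2' : (σ⁻¹ * τ) s2 = s2 := h2
        rw [hf, if_pos h1', if_pos h2']
      have h4 : τ = σ * (σ⁻¹ * τ) := by group
      rw [h4, hhom, h3, add_zero]
  have hroot : ∀ (d : ℤ) (s s' : QB), s ^ 2 = d → s' ^ 2 = d → ∀ σ : QB ≃ₐ[ℚ] QB,
      (σ s = s ↔ σ s' = s') := by
    intro d s s' hs hs' σ
    rcases sq_eq_sq_iff_eq_or_eq_neg.1 (hs.trans hs'.symm) with h1 | h1
    · rw [h1]
    · rw [h1, map_neg, neg_inj]
  refine ⟨f, ⟨hlc, hf2, hhom, fun p _ => locT two_ne_zero two_ne_zero h hab hac hbc f hf2 d1 d2 hd1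
    hd2 s1 s2 hs1 hs2 (fun σ => (hfa σ).symm) (fun σ => (hfb σ).symm) (hp p),
    locT two_ne_zero two_ne_zero h hab hac hbc f hf2 d1 d2 hd1
    hd2 s1 s2 hs1 hs2 (fun σ => (hfa σ).symm) (fun σ => (hfb σ).symm) hR⟩, ?_, ?_⟩
  · intro s hs σ
    rw [hfa]
    exact hroot d1 s s1 hs hs1 σ
  · intro s hs σ
    rw [hfb]
    exact hroot d2 s s2 hs hs2 σ

end Pool.Agent.Z864.SX
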