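import Pool.Agent.Y667.SX.Stm
import Pool.Agent.Z864.SX.Conv

/-!
# Project SX: the Selmer homomorphisms and the families of squarefree integers
-/

set_option autoImplicit false

namespace Pool.Agent.Z864.SX

open WeierstrassCurve Pool.Agent.TH841.SH

open scoped Classical

open Pool.Agent.W262.SH (QB Pt act IsCoc IsCob LocTriv shaCoc cob Sha)
open Pool.Agent.W307.SE Pool.Agent.W307.RT
open Pool.Agent.W402.FK (coef dist roots cub)

/-- two squarefree integers in the same square class are equal -/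
lemma sqf_eq {a b : ℤ} (ha : Squarefree a) (hb : Squarefree b) (h : IsSquare ((a : ℚ) * b)) :
    a = b := by
  have h1 : IsSquare (((a * b : ℤ)) : ℚ) := by
    push_cast
    exact h
  rw [Rat.isSquare_intCast_iff] at h1
  obtain ⟨m, hm⟩ := h1
  have h2 : a ∣ m ^ 2 := ⟨b, by rw [hm]; ring⟩
  rw [ha.dvd_pow_iff_dvd two_ne_zero] at h2
  obtain ⟨k, rfl⟩ := h2
  have ha0 : a ≠ 0 := ha.ne_zero
  have h3 : b = k * k * a := by
    apply mul_left_cancel₀ ha0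
    rw [hm]
    ring
  have h4 : IsUnit k := hb k ⟨a, h3⟩
  rcases Int.isUnit_iff.1 h4 with h5 | h5
  · rw [h3, h5]
    ring
  · rw [h3, h5]
    ring

/-- an integer that is a square everywhere locally is a square -/
lemma sq_of_loc {D : ℤ} (hD : D ≠ 0) (hR : IsSquare (D : ℝ))
    (hp : ∀ (p : ℕ) [Fact p.Prime], IsSquare (D : ℚ_[p])) : IsSquare (D : ℚ) := by
  obtain ⟨e, r, he, hr, hDe⟩ := exists_sqf (D : ℚ) (by exact_mod_cast hD)
  have htr : ∀ (K : Type) [Field K] [CharZero K], IsSquare (D : K) → IsSquare (e : K) := by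
    intro K _ _ hK
    obtain ⟨z, hz⟩ := hK
    have h1 : (D : K) = e * (r : K) ^ 2 := by exact_mod_cast congrArg (Rat.cast : ℚ → K) hDe
    have hr' : (r : K) ≠ 0 := by exact_mod_cast hr
    refine ⟨z / r, ?_⟩
    field_simp
    rw [← h1, hz]
    ring
  have heR := htr ℝ hR
  have hepos : 0 < e := by
    have h1 : (0 : ℝ) ≤ e := heR.nonneg
    have h2 : 0 ≤ e := by exact_mod_cast h1
    exact lt_of_le_of_ne h2 he.ne_zero.symm
  have he1 : e = 1 := by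
    by_contra hne
    have h1 : e.natAbs ≠ 1 := by omega
    obtain ⟨p, hpp, hpe⟩ := Nat.exists_prime_and_dvd h1
    have hfact : Fact p.Prime := ⟨hpp⟩
    have hpe' : (p : ℤ) ∣ e := Int.natCast_dvd.2 hpe
    obtain ⟨z, hz⟩ := htr ℚ_[p] (hp p)
    have h2 : ‖((e : ℤ) : ℚ_[p])‖ < 1 := Padic.norm_intCast_lt_one_iff.2 hpe'
    have h3 : ‖z‖ < 1 := by
      rw [hz, norm_mul] at h2
      by_contra h4
      push Not at h4
      nlinarith
    have h4 : ‖z‖ ≤ (p : ℝ) ^ (-1 : ℤ) := by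
      rw [Padic.norm_le_pow_iff_norm_lt_pow_add_one]
      simpa using h3
    have h5 : ‖((e : ℤ) : ℚ_[p])‖ ≤ (p : ℝ) ^ (-(2 : ℕ) : ℤ) := by
      rw [hz, norm_mul]
      calc ‖z‖ * ‖z‖ ≤ (p : ℝ) ^ (-1 : ℤ) * (p : ℝ) ^ (-1 : ℤ) :=
            mul_le_mul h4 h4 (norm_nonneg _) ((norm_nonneg _).trans h4)
        _ = (p : ℝ) ^ (-(2 : ℕ) : ℤ) := by
            rw [← zpow_add₀ (by exact_mod_cast hpp.ne_zero)]
            norm_num
    rw [Padic.norm_int_le_pow_iff_dvd] at h5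
    have h6 : IsUnit (p : ℤ) := he p (by rw [← pow_two]; exact_mod_cast h5)
    rw [Int.isUnit_iff_natAbs_eq, Int.natAbs_natCast] at h6
    exact hpp.one_lt.ne' h6
  rw [hDe, he1]
  exact ⟨r, by push_cast; ring⟩

/-- from the local condition for the roots to the one for two of them -/
lemma locC_of {K : Type} [Field K] {A B e1 e2 e3 : ℤ}
    (h : ∀ x : ℤ, x ^ 3 + A * x + B = (x - e1) * (x - e2) * (x - e3)) {d : ℤ → ℤ}
    (hL : LocR K A B d) : LocC K e1 e2 e3 (d e1) (d e2) ∧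
      IsSquare ((d e1 * d e2 * d e3 : ℤ) : K) := by
  obtain ⟨x, y, hy, hxy, hsq⟩ := hL
  rw [cub K A B e1 e2 e3 h] at hxy
  have h1 := hsq e1 (by rw [h]; ring)
  have h2 := hsq e2 (by rw [h]; ring)
  have h3 := hsq e3 (by rw [h]; ring)
  refine ⟨⟨x, y, hy, hxy, h1, h2⟩, ?_⟩
  obtain ⟨r1, h1⟩ := h1
  obtain ⟨r2, h2⟩ := h2
  obtain ⟨r3, h3⟩ := h3
  refine ⟨r1 * r2 * r3 / y, ?_⟩
  rw [div_mul_div_comm, eq_div_iff (mul_ne_zero hy hy)]
  push_cast
  calc (d e1 : K) * d e2 * d e3 * (y * y) = (d e1 : K) * d e2 * d e3 * y ^ 2 := by ring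
    _ = ((x - e1) * d e1) * ((x - e2) * d e2) * ((x - e3) * d e3) := by rw [hxy]; ring
    _ = _ := by rw [h1, h2, h3]; ring

/-- the class is determined by the character -/
lemma cls_eq {d d' : ℤ} (hd : Squarefree d) (hd' : Squarefree d')
    (h : ∀ s t : QB, s ^ 2 = d → t ^ 2 = d' → ∀ σ : QB ≃ₐ[ℚ] QB, (σ s = s ↔ σ t = t)) :
    d = d' := by
  obtain ⟨s, hs⟩ := IsAlgClosed.exists_pow_nat_eq ((d : ℤ) : QB) (n := 2) (by norm_num)
  obtain ⟨t, ht⟩ := IsAlgClosed.exists_pow_nat_eq ((d' : ℤ) : QB) (n := 2) (by norm_num)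
  have hpm : ∀ (d : ℤ) (s : QB), s ^ 2 = d → ∀ σ : QB ≃ₐ[ℚ] QB, σ s = s ∨ σ s = -s := by
    intro d s hs σ
    have : (σ s) ^ 2 = s ^ 2 := by rw [← map_pow, hs, map_intCast]
    exact sq_eq_sq_iff_eq_or_eq_neg.1 this
  obtain ⟨q, hq⟩ := fix_mem (K := ℚ) (s * t) (by
    intro σ
    rw [map_mul]
    have h1 := h s t hs ht σ
    by_cases h2 : σ s = s
    · rw [h2, h1.1 h2]
    · have h3 : σ t ≠ t := fun h' => h2 (h1.2 h')
      rw [(hpm d s hs σ).resolve_left h2, (hpm d' t ht σ).resolve_left h3]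
      ring)
  apply sqf_eq hd hd'
  refine ⟨q, ?_⟩
  apply (algebraMap ℚ QB).injective
  rw [map_mul, map_mul, hq, map_intCast, map_intCast, ← hs, ← ht]
  ring

/-- **SELH** -/
theorem SELH : Pool.Agent.Y667.SX.St_SELH := by
  intro A B e1 e2 e3 hD h hS
  obtain ⟨d12, d13, d23⟩ := dist A B e1 e2 e3 hD h
  obtain ⟨hG, hGle⟩ := selG_le hD h hS
  have hW : IsR (Sh A B) (e1 : ℚ) (e2 : ℚ) (e3 : ℚ) := isR_Sh h
  obtain ⟨Φ, hΦ, hΦS⟩ := sel_inj hW d12 d13 d23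
  have hfinG : Finite (SelG e1 e2 e3) := hG
  have hfin : Finite (selHom (Sh A B)) :=
    Finite.of_injective (fun f => (⟨Φ f, hΦS f⟩ : SelG e1 e2 e3))
      (fun f g hfg => hΦ (congrArg Subtype.val hfg))
  have hle : Nat.card (selHom (Sh A B)) ≤ (SelG e1 e2 e3).ncard := by
    rw [← Nat.card_coe_set_eq]
    exact Nat.card_le_card_of_injective (fun f => (⟨Φ f, hΦS f⟩ : SelG e1 e2 e3))
      (fun f g hfg => hΦ (congrArg Subtype.val hfg))
  refine ⟨hfin, le_antisymm (hle.trans hGle) ?_⟩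
  have hex : ∀ d : SelR A B, ∃ f : selHom (Sh A B),
      (∀ s : QB, s ^ 2 = (d.1 e1 : ℤ) → ∀ σ : QB ≃ₐ[ℚ] QB, σ s = s ↔
        Pool.Agent.TH841.SH.IsX ((Sh A B).baseChange QB) (algebraMap ℚ QB e1) (f.1 σ)) ∧
      ∀ s : QB, s ^ 2 = (d.1 e2 : ℤ) → ∀ σ : QB ≃ₐ[ℚ] QB, σ s = s ↔
        Pool.Agent.TH841.SH.IsX ((Sh A B).baseChange QB) (algebraMap ℚ QB e2) (f.1 σ) := by
    rintro ⟨d, hd1, hd2, hdR, hdp⟩
    obtain ⟨f, hf, hf1, hf2⟩ := exists_hom hW d12 d13 d23 (hd1 e1).ne_zero (hd1 e2).ne_zero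
      (locC_of h hdR).1 (fun p _ => (locC_of h (hdp p)).1)
    exact ⟨⟨f, hf⟩, hf1, hf2⟩
  choose Ψ hΨ1 hΨ2 using hex
  have hinj : Function.Injective Ψ := by
    intro d d' hdd
    have k1 : d.1 e1 = d'.1 e1 := by
      apply cls_eq (d.2.1 e1) (d'.2.1 e1)
      intro s t hs ht σ
      rw [hΨ1 d s hs σ, hΨ1 d' t ht σ, hdd]
    have k2 : d.1 e2 = d'.1 e2 := by
      apply cls_eq (d.2.1 e2) (d'.2.1 e2)
      intro s t hs ht σ
      rw [hΨ2 d s hs σ, hΨ2 d' t ht σ, hdd]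
    have hsq : ∀ d : SelR A B, IsSquare ((d.1 e1 * d.1 e2 * d.1 e3 : ℤ) : ℚ) := by
      intro d
      refine sq_of_loc ?_ (locC_of h d.2.2.2.1).2 (fun p _ => (locC_of h (d.2.2.2.2 p)).2)
      exact mul_ne_zero (mul_ne_zero (d.2.1 e1).ne_zero (d.2.1 e2).ne_zero) (d.2.1 e3).ne_zero
    have k3 : d.1 e3 = d'.1 e3 := by
      apply sqf_eq (d.2.1 e3) (d'.2.1 e3)
      obtain ⟨m, hm⟩ := hsq d
      obtain ⟨m', hm'⟩ := hsq d'
      rw [← k1, ← k2] at hm'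
      push_cast at hm hm'
      have n1 : ((d.1 e1 : ℤ) : ℚ) ≠ 0 := by exact_mod_cast (d.2.1 e1).ne_zero
      have n2 : ((d.1 e2 : ℤ) : ℚ) ≠ 0 := by exact_mod_cast (d.2.1 e2).ne_zero
      refine ⟨m * m' / ((d.1 e1 : ℚ) * d.1 e2), ?_⟩
      rw [div_mul_div_comm, eq_div_iff (by positivity)]
      calc ((d.1 e3 : ℤ) : ℚ) * (d'.1 e3 : ℤ) * ((d.1 e1 : ℚ) * d.1 e2 * ((d.1 e1 : ℚ) * d.1 e2))
          = ((d.1 e1 : ℚ) * d.1 e2 * d.1 e3) * ((d.1 e1 : ℚ) * d.1 e2 * d'.1 e3) := by ring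
        _ = m * m * (m' * m') := by rw [hm, hm']
        _ = _ := by ring
    apply Subtype.ext
    funext e
    by_cases he : e ^ 3 + A * e + B = 0
    · rcases roots A B e1 e2 e3 h e he with rfl | rfl | rfl
      · exact k1
      · exact k2
      · exact k3
    · rw [d.2.2.1 e he, d'.2.2.1 e he]
  rw [← Nat.card_coe_set_eq]
  exact Nat.card_le_card_of_injective Ψ hinj

end Pool.Agent.Z864.SX
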